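import Pool.Agent.H648.Q.Defs

/-!
# Project Q648 (helper648), task SV (D3): for most triples a prime can be moved (helper591)
-/

set_option autoImplicit false

namespace Pool.Agent.H591.Q648

open Finset Filter
open Pool.Agent.W78.GT (Tr NT tri rts Qp mem_tri mem_rts vx vy vx_mem S_VET)
open Pool.Agent.H648.Q

/-- the finite set of primes for one residue class -/
theorem prd_cls {b m κ t c : ℤ} (ht : t = b * κ) (hc : c = m * κ ^ 2) (h0 : S_PRD)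
    (h2 : S_CLS (b ^ 2 - 4 * m)) {M : ℕ} (hM : 1 ≤ M) {η : ℝ} (hη : 0 < η) (ρ : ℕ)
    (hρ : Int.gcd ρ M = 1) :
    ∃ Q : Finset ℕ, (∀ q ∈ Q, q.Prime ∧ q ≠ 2 ∧
      (∃ s : ZMod q, s * s = ((t ^ 2 - 4 * c : ℤ) : ZMod q)) ∧
      ((M : ℤ) ∣ (q : ℤ) - ρ ∨ (M : ℤ) ∣ (q : ℤ) + ρ)) ∧ ∏ q ∈ Q, (1 - 1 / (q : ℝ)) ≤ η := by
  obtain ⟨s, hs, N, r, hN, hrN, hMN, hMr, hq⟩ := h2 M ρ hM hρ
  obtain ⟨Q, hQ, hprod⟩ := h0 N r hN hrN η hη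
  refine ⟨Q, ?_, hprod⟩
  intro q hqQ
  obtain ⟨hqp, hqr⟩ := hQ q hqQ
  obtain ⟨hq2, x, hx⟩ := hq q hqp hqr
  refine ⟨hqp, hq2, ⟨(κ : ZMod q) * x, ?_⟩, ?_⟩
  · have e1 : (t ^ 2 - 4 * c : ℤ) = κ ^ 2 * (b ^ 2 - 4 * m) := by rw [ht, hc]; ring
    rw [e1, Int.cast_mul, ← hx]
    push_cast
    ring
  · have h3 : (N : ℤ) ∣ (r : ℤ) - q := (Nat.modEq_iff_dvd.1 hqr)
    have h4 : (M : ℤ) ∣ (r : ℤ) - q := (Int.natCast_dvd_natCast.2 hMN).trans h3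
    have h5 : (M : ℤ) ∣ (q : ℤ) - s * ρ := by
      have h6 := dvd_sub hMr h4
      have e : (r : ℤ) - s * ρ - (r - q) = q - s * ρ := by ring
      rwa [e] at h6
    rcases hs with rfl | rfl
    · left
      rwa [one_mul] at h5
    · right
      have e : (q : ℤ) - -1 * ρ = q + ρ := by ring
      rwa [e] at h5

/-- the residue class of a triple -/
theorem cls_of {b m κ : ℤ} {M : ℕ} (hM : 1 ≤ M)
    (hMκ : ∀ p : ℕ, p.Prime → p ∣ M → (p : ℤ) ∣ κ) {X : ℝ} {e : Tr}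
    (he : e ∈ tri (b * κ) (m * κ ^ 2) X X) (hg : Int.gcd e.2.1 κ = 1) :
    ∃ ρ : ℕ, ρ < M ∧ Int.gcd ρ M = 1 ∧ (M : ℤ) ∣ (e.1 : ℤ) - ρ * e.2.1 := by
  obtain ⟨a1, a2, a3, a4, a5, a6⟩ := mem_tri.1 he
  have hM0 : (0 : ℤ) < M := by exact_mod_cast hM
  have hcopn : IsCoprime e.2.1 (M : ℤ) := by
    rw [Int.isCoprime_iff_gcd_eq_one]
    by_contra hne
    obtain ⟨p, hp, hpd⟩ := Nat.exists_prime_and_dvd hne
    have h1 : (p : ℤ) ∣ e.2.1 := (Int.natCast_dvd_natCast.2 hpd).trans (Int.gcd_dvd_left _ _)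
    have h2 : (p : ℤ) ∣ (M : ℤ) := (Int.natCast_dvd_natCast.2 hpd).trans (Int.gcd_dvd_right _ _)
    have h3 := hMκ p hp (Int.natCast_dvd_natCast.1 h2)
    have h4 : p ∣ Int.gcd e.2.1 κ := Int.dvd_gcd h1 h3
    rw [hg] at h4
    exact hp.one_lt.ne' (Nat.dvd_one.1 h4)
  obtain ⟨u, v, huv⟩ := hcopn
  have hnn : 0 ≤ ((e.1 : ℤ) * u) % M := Int.emod_nonneg _ hM0.ne'
  have hlt : ((e.1 : ℤ) * u) % M < M := Int.emod_lt_of_pos _ hM0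
  obtain ⟨ρ, hρ⟩ := Int.eq_ofNat_of_zero_le hnn
  have hdvd : (M : ℤ) ∣ (e.1 : ℤ) * u - ρ := by
    rw [← hρ]
    exact Int.dvd_self_sub_emod
  have hmain : (M : ℤ) ∣ (e.1 : ℤ) - ρ * e.2.1 := by
    have h1 : (e.1 : ℤ) - ρ * e.2.1 = e.2.1 * ((e.1 : ℤ) * u - ρ) + M * (e.1 * v) := by
      linear_combination (-(e.1 : ℤ)) * huv
    rw [h1]
    exact dvd_add (Dvd.dvd.mul_left hdvd _) (Dvd.intro _ rfl)
  refine ⟨ρ, by rw [hρ] at hlt; exact_mod_cast hlt, ?_, hmain⟩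
  by_contra hne
  obtain ⟨p, hp, hpd⟩ := Nat.exists_prime_and_dvd hne
  have h1 : (p : ℤ) ∣ (ρ : ℤ) := (Int.natCast_dvd_natCast.2 hpd).trans (Int.gcd_dvd_left _ _)
  have h2 : (p : ℤ) ∣ (M : ℤ) := (Int.natCast_dvd_natCast.2 hpd).trans (Int.gcd_dvd_right _ _)
  have h3 := hMκ p hp (Int.natCast_dvd_natCast.1 h2)
  have h4 : (p : ℤ) ∣ (e.1 : ℤ) := by
    have h5 := dvd_add (h2.trans hmain) (Dvd.dvd.mul_right h1 e.2.1)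
    rwa [sub_add_cancel] at h5
  have h5 : (p : ℤ) ∣ e.2.1 ^ 2 := by
    have h6 : (p : ℤ) ∣ Qp (b * κ) (m * κ ^ 2) e.2.1 := by
      rw [← a5]
      exact Dvd.dvd.mul_right h4 _
    unfold Qp at h6
    have h7 : (p : ℤ) ∣ b * κ * e.2.1 + m * κ ^ 2 :=
      dvd_add (Dvd.dvd.mul_right (Dvd.dvd.mul_left h3 _) _)
        (Dvd.dvd.mul_left (dvd_pow h3 two_ne_zero) _)
    have h8 := dvd_sub h6 h7
    have e8 : e.2.1 ^ 2 + b * κ * e.2.1 + m * κ ^ 2 - (b * κ * e.2.1 + m * κ ^ 2) = e.2.1 ^ 2 := by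
      ring
    rwa [e8] at h8
  have h6 : (p : ℤ) ∣ e.2.1 := (Nat.prime_iff_prime_int.1 hp).dvd_of_dvd_pow h5
  have h7 : p ∣ Int.gcd e.2.1 κ := Int.dvd_gcd h6 h3
  rw [hg] at h7
  exact hp.one_lt.ne' (Nat.dvd_one.1 h7)

/-- **Task SV (D3).** -/
theorem sv_of {b m : ℤ} (hD : b ^ 2 < 4 * m) (h0 : S_PRD)
    (h1 : ∀ t c : ℤ, ¬ IsSquare (t ^ 2 - 4 * c) → S_SFT t c) (h2 : S_CLS (b ^ 2 - 4 * m)) :
    S_SV b m := by
  classical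
  intro κ M hκ hM hκM hMκ δ hδ
  obtain ⟨t, ht⟩ : ∃ t, t = b * κ := ⟨_, rfl⟩
  obtain ⟨c, hc⟩ : ∃ c, c = m * κ ^ 2 := ⟨_, rfl⟩
  have hns : ¬ IsSquare (t ^ 2 - 4 * c) := by
    rintro ⟨w, hw⟩
    have e1 : t ^ 2 - 4 * c = κ ^ 2 * (b ^ 2 - 4 * m) := by rw [ht, hc]; ring
    have h3 : 0 < κ ^ 2 := by positivity
    have h4 : κ ^ 2 * (b ^ 2 - 4 * m) < 0 := mul_neg_of_pos_of_neg h3 (by linarith)
    rw [e1] at hw
    have h5 := mul_self_nonneg w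
    linarith
  have hvet : S_VET t c :=
    Pool.Agent.W29.GT.vet_of (Pool.Agent.W29.GT.root_of (Pool.Agent.W571.GT.rep hns))
  obtain ⟨C₀, hC₀, hvet⟩ := hvet
  obtain ⟨C₁, hC₁, hsft⟩ := h1 t c hns
  have hMr : (0 : ℝ) < M := by exact_mod_cast hM
  obtain ⟨κ₀, hκ₀⟩ : ∃ κ₀ : ℝ, κ₀ = min 1 (δ / (2 * C₀)) := ⟨_, rfl⟩
  have hκ₀1 : κ₀ ≤ 1 := by rw [hκ₀]; exact min_le_left _ _
  have hκ₀2 : κ₀ ≤ δ / (2 * C₀) := by rw [hκ₀]; exact min_le_right _ _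
  have hκ₀0 : 0 < κ₀ := by rw [hκ₀]; exact lt_min one_pos (by positivity)
  obtain ⟨η, hη⟩ : ∃ η : ℝ, η = δ * κ₀ / (2 * C₀ * M * C₁) := ⟨_, rfl⟩
  have hη0 : 0 < η := by rw [hη]; positivity
  -- the sets of primes
  have hQex : ∀ ρ : ℕ, ∃ Q : Finset ℕ, Int.gcd ρ M = 1 → (∀ q ∈ Q, q.Prime ∧ q ≠ 2 ∧
      (∃ s : ZMod q, s * s = ((t ^ 2 - 4 * c : ℤ) : ZMod q)) ∧
      ((M : ℤ) ∣ (q : ℤ) - ρ ∨ (M : ℤ) ∣ (q : ℤ) + ρ)) ∧ ∏ q ∈ Q, (1 - 1 / (q : ℝ)) ≤ η := by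
    intro ρ
    by_cases hρ : Int.gcd ρ M = 1
    · obtain ⟨Q, hQ⟩ := prd_cls ht hc h0 h2 hM hη0 ρ hρ
      exact ⟨Q, fun _ => hQ⟩
    · exact ⟨∅, fun h => absurd h hρ⟩
  choose Qr hQr using hQex
  obtain ⟨R, hR⟩ : ∃ R : Finset ℕ, R = (Finset.range M).filter (fun ρ : ℕ => Int.gcd (ρ : ℤ) M = 1) :=
    ⟨_, rfl⟩
  have hRmem : ∀ ρ, ρ ∈ R ↔ ρ < M ∧ Int.gcd ρ M = 1 := by
    intro ρ
    rw [hR, Finset.mem_filter, Finset.mem_range]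
  have hRcard : (R.card : ℝ) ≤ M := by
    have h3 : R.card ≤ (Finset.range M).card := by
      rw [hR]
      exact Finset.card_filter_le _ _
    rw [Finset.card_range] at h3
    exact_mod_cast h3
  -- the thresholds
  have hXex : ∀ ρ : ℕ, ∃ X₀ : ℝ, ρ ∈ R → ∀ X : ℝ, X₀ ≤ X →
      (((rts t c X).filter (fun e => ∀ q ∈ Qr ρ, ¬ q ∣ e.1)).card : ℝ) ≤ C₁ * η * X := by
    intro ρ
    by_cases hρ : ρ ∈ R
    · obtain ⟨h3, h4⟩ := hQr ρ ((hRmem ρ).1 hρ).2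
      obtain ⟨X₀, hX₀⟩ := hsft (Qr ρ) (fun q hq => ⟨(h3 q hq).1, (h3 q hq).2.1, (h3 q hq).2.2.1⟩)
      refine ⟨max X₀ 0, fun _ X hX => (hX₀ X ((le_max_left _ _).trans hX)).trans ?_⟩
      have hX0 : 0 ≤ X := (le_max_right _ _).trans hX
      exact mul_le_mul_of_nonneg_right (mul_le_mul_of_nonneg_left h4 hC₁.le) hX0
    · exact ⟨0, fun h => absurd h hρ⟩
  choose Xr hXr using hXex
  refine ⟨R.biUnion Qr, ?_, max 1 (∑ ρ ∈ R, |Xr ρ|), ?_⟩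
  · intro q hq
    obtain ⟨ρ, hρ, hq⟩ := Finset.mem_biUnion.1 hq
    exact ((hQr ρ ((hRmem ρ).1 hρ).2).1 q hq).1
  intro X hX
  have hX1 : 1 ≤ X := (le_max_left _ _).trans hX
  have hX2 : ∀ ρ ∈ R, Xr ρ ≤ X := by
    intro ρ hρ
    refine (le_abs_self _).trans ((Finset.single_le_sum (fun ρ _ => abs_nonneg (Xr ρ)) hρ).trans ?_)
    exact (le_max_right _ _).trans hX
  obtain ⟨V, hV⟩ : ∃ V : Finset (ℕ × ℤ), V = R.biUnion (fun ρ =>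
    (rts t c X).filter (fun e => ∀ q ∈ Qr ρ, ¬ q ∣ e.1)) := ⟨_, rfl⟩
  have hVsub : V ⊆ rts t c X := by
    intro x hx
    rw [hV, Finset.mem_biUnion] at hx
    obtain ⟨ρ, -, hx⟩ := hx
    exact (Finset.mem_filter.1 hx).1
  have hVcard : (V.card : ℝ) ≤ M * (C₁ * η * X) := by
    have h3 : V.card ≤ ∑ ρ ∈ R, ((rts t c X).filter (fun e => ∀ q ∈ Qr ρ, ¬ q ∣ e.1)).card := by
      rw [hV]
      exact Finset.card_biUnion_le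
    calc (V.card : ℝ) ≤ ∑ ρ ∈ R,
          (((rts t c X).filter (fun e => ∀ q ∈ Qr ρ, ¬ q ∣ e.1)).card : ℝ) := by exact_mod_cast h3
      _ ≤ ∑ _ρ ∈ R, C₁ * η * X := Finset.sum_le_sum fun ρ hρ => hXr ρ hρ X (hX2 ρ hρ)
      _ = R.card * (C₁ * η * X) := by rw [Finset.sum_const, nsmul_eq_mul]
      _ ≤ _ := mul_le_mul_of_nonneg_right hRcard (by positivity)
  have hbound := hvet κ₀ X V hκ₀0 hκ₀1 hX1 hVsub
  -- bad triples have their first vertex in `V`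
  have hsub : (tri (b * κ) (m * κ ^ 2) X X).filter
      (fun e => Int.gcd e.2.1 κ = 1 ∧ ¬ Gd M (R.biUnion Qr) e) ⊆
      (tri t c X X).filter (fun e => vx e ∈ V ∨ vy e ∈ V) := by
    intro e he
    obtain ⟨he1, he2, he3⟩ := Finset.mem_filter.1 he
    obtain ⟨ρ, hρM, hρg, hρd⟩ := cls_of hM hMκ he1 he2
    have hρR : ρ ∈ R := (hRmem ρ).2 ⟨hρM, hρg⟩
    rw [← ht, ← hc] at he1
    refine Finset.mem_filter.2 ⟨he1, Or.inl ?_⟩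
    rw [hV, Finset.mem_biUnion]
    refine ⟨ρ, hρR, Finset.mem_filter.2 ⟨vx_mem he1, ?_⟩⟩
    intro l hl hld
    have hld' : l ∣ e.1 := hld
    obtain ⟨d, hd⟩ := hld'
    apply he3
    refine ⟨l, Finset.mem_biUnion.2 ⟨ρ, hρR, hl⟩, d, hd, ?_⟩
    have hcop : IsCoprime (M : ℤ) (ρ : ℤ) := (Int.isCoprime_iff_gcd_eq_one.2 hρg).symm
    have hd' : (e.1 : ℤ) = l * d := by exact_mod_cast hd
    rw [hd'] at hρd
    rcases ((hQr ρ hρg).1 l hl).2.2.2 with h5 | h5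
    · left
      apply hcop.dvd_of_dvd_mul_left
      have e1 : (ρ : ℤ) * (e.2.1 - d) = ((l : ℤ) - ρ) * d - ((l : ℤ) * d - ρ * e.2.1) := by ring
      rw [e1]
      exact dvd_sub (Dvd.dvd.mul_right h5 _) hρd
    · right
      apply hcop.dvd_of_dvd_mul_left
      have e1 : (ρ : ℤ) * (e.2.1 + d) = ((l : ℤ) + ρ) * d - ((l : ℤ) * d - ρ * e.2.1) := by ring
      rw [e1]
      exact dvd_sub (Dvd.dvd.mul_right h5 _) hρd
  have hcard : ((((tri (b * κ) (m * κ ^ 2) X X).filter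
      (fun e => Int.gcd e.2.1 κ = 1 ∧ ¬ Gd M (R.biUnion Qr) e)).card : ℕ) : ℝ) ≤
      (((tri t c X X).filter (fun e => vx e ∈ V ∨ vy e ∈ V)).card : ℝ) := by
    exact_mod_cast Finset.card_le_card hsub
  refine hcard.trans (hbound.trans ?_)
  have h6 : (V.card : ℝ) / κ₀ ≤ M * (C₁ * η * X) / κ₀ := div_le_div_of_nonneg_right hVcard hκ₀0.le
  have h7 : C₀ * (M * (C₁ * η * X) / κ₀) = δ / 2 * X := by
    rw [hη]
    field_simp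
  have h8 : C₀ * (κ₀ * X) ≤ δ / 2 * X := by
    have h9 : C₀ * κ₀ ≤ δ / 2 := by
      calc C₀ * κ₀ ≤ C₀ * (δ / (2 * C₀)) := mul_le_mul_of_nonneg_left hκ₀2 hC₀.le
        _ = δ / 2 := by field_simp
    calc C₀ * (κ₀ * X) = C₀ * κ₀ * X := by ring
      _ ≤ _ := mul_le_mul_of_nonneg_right h9 (by linarith)
  calc C₀ * (κ₀ * X + (V.card : ℝ) / κ₀) = C₀ * (κ₀ * X) + C₀ * ((V.card : ℝ) / κ₀) := by ring
    _ ≤ δ / 2 * X + C₀ * (M * (C₁ * η * X) / κ₀) :=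
        add_le_add h8 (mul_le_mul_of_nonneg_left h6 hC₀.le)
    _ = δ * X := by rw [h7]; ring

end Pool.Agent.H591.Q648
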