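import Pool.Agent.H648.Q.Defs3
import Pool.Agent.H225.Q648.CNT2

/-!
Project Q648, last part (helper648), task CNT3 (helper591): from triples to pairs `(q₁, q₂)` with
`q₁ q₂ = a κ² f(x)`.
-/

set_option autoImplicit false

namespace Pool.Agent.H591.Q648

open Finset
open Pool.Agent.W78.GS (Pm)
open Pool.Agent.W78.GT (Tr NT tri Qp mem_tri)
open Pool.Agent.H648.Q
open Pool.Agent.H648.Q2 (G1 sw)
open Pool.Agent.H648.Q3 (PA S_CNT3)
open Pool.Agent.H225.Q648 (ph Fp_ne C1 C1_pos ends n_le)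

/-- the cofactor is positive -/
theorem cof_pos {a b c κ : ℤ} (hκ : 0 < κ) {l d₂ D₂ : ℕ} {n : ℤ} (hl : 2 ≤ l) (hd : 1 ≤ d₂)
    (hle : l * d₂ ≤ D₂) (h5 : ((l * d₂ : ℕ) : ℤ) * D₂ = Qp (b * κ) (a * c * κ ^ 2) n)
    (hn : C1 a b c κ < n) :
    0 < (d₂ : ℤ) + ((l * D₂ : ℕ) : ℤ) - (2 * n + b * κ) ∧ 0 < 2 * n + b * κ := by
  have hC := C1_pos (a := a) (b := b) (c := c) hκ
  have hn1 : 1 ≤ n := by linarith
  unfold C1 at hn
  unfold Qp at h5
  obtain ⟨T, hT⟩ : ∃ T : ℤ, T = |b| * κ := ⟨_, rfl⟩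
  obtain ⟨S, hS⟩ : ∃ S : ℤ, S = |a * c| * κ ^ 2 := ⟨_, rfl⟩
  have hT0 : 0 ≤ T := by rw [hT]; positivity
  have hS0 : 0 ≤ S := by rw [hS]; positivity
  have hb2 : b ^ 2 * κ ^ 2 = T ^ 2 := by rw [hT, mul_pow, sq_abs]
  have e1 : 2 * |b| * κ = 2 * T := by rw [hT]; ring
  have e2 : 4 * |a * c| * κ ^ 2 = 4 * S := by rw [hS]; ring
  rw [hb2, e1, e2] at hn
  have g1 : b * κ ≤ T := by
    rw [hT]
    exact mul_le_mul_of_nonneg_right (le_abs_self b) hκ.le
  have g1' : -T ≤ b * κ := by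
    rw [hT]
    have := mul_le_mul_of_nonneg_right (neg_abs_le b) hκ.le
    linarith
  have g2 : a * c * κ ^ 2 ≤ S := by
    rw [hS]
    exact mul_le_mul_of_nonneg_right (le_abs_self _) (sq_nonneg κ)
  have g2' : -S ≤ a * c * κ ^ 2 := by
    rw [hS]
    have := mul_le_mul_of_nonneg_right (neg_abs_le (a * c)) (sq_nonneg κ)
    linarith
  have hpos : 0 < 2 * n + b * κ := by nlinarith
  refine ⟨?_, hpos⟩
  have hlz : (2 : ℤ) ≤ l := by exact_mod_cast hl
  have hdz : (1 : ℤ) ≤ d₂ := by exact_mod_cast hd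
  have hlez : (l : ℤ) * d₂ ≤ D₂ := by exact_mod_cast hle
  have hD0 : (0 : ℤ) ≤ D₂ := Nat.cast_nonneg _
  push_cast at h5 ⊢
  obtain ⟨P, hP⟩ : ∃ P : ℤ, P = n ^ 2 + b * κ * n + a * c * κ ^ 2 := ⟨_, rfl⟩
  rw [← hP] at h5
  -- `D₂² ≥ P`
  have k1 : P ≤ (D₂ : ℤ) * D₂ := by
    rw [← h5]
    exact mul_le_mul_of_nonneg_right hlez hD0
  -- `l D₂ - d₂ ≥ D₂`
  have k2 : (D₂ : ℤ) ≤ l * D₂ - d₂ := by
    have m1 : 2 * (d₂ : ℤ) ≤ l * d₂ := by nlinarith
    have m2 : 2 * (D₂ : ℤ) ≤ l * D₂ := by nlinarith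
    linarith
  have k3 : P ≤ (l * D₂ - d₂ : ℤ) * (l * D₂ - d₂) :=
    k1.trans (mul_le_mul k2 k2 hD0 (hD0.trans k2))
  -- `P > κ² D`
  have k4 : (b * κ) ^ 2 ≤ T ^ 2 := by
    apply sq_le_sq'
    · exact g1'
    · exact g1
  have k5 : T ^ 2 + 4 * S < P := by
    have m1 : -(T * n) ≤ b * κ * n := by nlinarith
    have m2 : 2 * T * n ≤ n * n := by nlinarith
    have m3 : (T ^ 2 + 4 * S + 1) * (T ^ 2 + 4 * S + 1) ≤ n * n :=
      mul_le_mul (by linarith) (by linarith) (by positivity) (by linarith)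
    have m4 : 0 ≤ T ^ 2 + 4 * S := by positivity
    have m5 : 4 * (T ^ 2 + 4 * S) ≤ (T ^ 2 + 4 * S + 1) * (T ^ 2 + 4 * S + 1) := by
      nlinarith [sq_nonneg (T ^ 2 + 4 * S - 1)]
    have m6 : n * n ≤ 2 * P + 2 * S := by rw [hP]; nlinarith
    rcases lt_or_ge 0 (T ^ 2 + 4 * S) with h | h
    · nlinarith
    · have h0 : T ^ 2 + 4 * S = 0 := le_antisymm h m4
      have hS' : S = 0 := by nlinarith
      have hT' : T = 0 := by nlinarith
      rw [hS'] at m6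
      rw [hS', hT']
      nlinarith
  have k6 : (2 * n + b * κ) * (2 * n + b * κ) <
      ((d₂ : ℤ) + l * D₂) * ((d₂ : ℤ) + l * D₂) := by
    have m1 : ((d₂ : ℤ) + l * D₂) * ((d₂ : ℤ) + l * D₂) =
        (l * D₂ - d₂ : ℤ) * (l * D₂ - d₂) + 4 * P := by
      rw [← h5]; ring
    have m2 : (2 * n + b * κ) * (2 * n + b * κ) =
        4 * P + (b * κ) ^ 2 - 4 * (a * c * κ ^ 2) := by
      rw [hP]; ring
    rw [m1, m2]
    linarith
  have k7 : 2 * n + b * κ < (d₂ : ℤ) + l * D₂ :=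
    lt_of_mul_self_lt_mul_self₀ (by positivity) k6
  linarith

/-- at most two arguments with the same value -/
theorem roots_le {a b c k : ℤ} (ha : 0 < a) (hk : 0 < k) (m : ℤ) (N : ℕ) :
    ((Icc 1 N).filter (fun x : ℕ => k * Fp a b c x = m)).card ≤ 2 := by
  by_contra hcon
  push Not at hcon
  obtain ⟨x, y, z, hx, hy, hz, hxy, hxz, hyz⟩ := Finset.two_lt_card_iff.1 hcon
  rw [mem_filter] at hx hy hz
  have key : ∀ u v : ℕ, k * Fp a b c u = m → k * Fp a b c v = m → u ≠ v →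
      a * ((u : ℤ) + v) + b = 0 := by
    intro u v hu hv huv
    have h1 : Fp a b c u = Fp a b c v := mul_left_cancel₀ hk.ne' (hu.trans hv.symm)
    have h2 : ((u : ℤ) - v) * (a * ((u : ℤ) + v) + b) = 0 := by
      unfold Fp at h1
      linear_combination h1
    rcases mul_eq_zero.1 h2 with h3 | h3
    · exact absurd (by exact_mod_cast sub_eq_zero.1 h3) huv
    · exact h3
  have h1 := key x y hx.2 hy.2 hxy
  have h2 := key x z hx.2 hz.2 hxz
  have h3 : a * ((y : ℤ) - z) = 0 := by linear_combination h1 - h2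
  rcases mul_eq_zero.1 h3 with h4 | h4
  · exact ha.ne' h4
  · exact hyz (by exact_mod_cast sub_eq_zero.1 h4)

theorem cnt3_of {g : ℕ → ℤ} {a b c : ℤ} (hg : Pm g) (ha : 0 < a)
    (hns : ¬ IsSquare (b ^ 2 - 4 * (a * c))) (h : S_STR g a b c) : S_CNT3 g a b c := by
  classical
  intro κ Q hκ haκ hQ
  have ha0 : a ≠ 0 := ha.ne'
  have hκ0 : κ ≠ 0 := hκ.ne'
  have haκ1 : 0 < a * κ := mul_pos ha hκ
  have haκ0 : a * κ ≠ 0 := haκ1.ne'
  have haκ2 : 0 < a * κ ^ 2 := by positivity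
  obtain ⟨q1, hq1⟩ : ∃ q1 : ℕ, ∀ l ∈ Q, l ≤ q1 := ⟨Q.sup id, fun l hl => Finset.le_sup (f := id) hl⟩
  set C2 : ℝ := q1 + 2 + 2 * |((b * κ : ℤ) : ℝ)| +
    |(((b ^ 2 - 4 * (a * c)) * κ ^ 2 : ℤ) : ℝ)| with hC2
  have hbk := abs_nonneg ((b * κ : ℤ) : ℝ)
  have hDk := abs_nonneg (((b ^ 2 - 4 * (a * c)) * κ ^ 2 : ℤ) : ℝ)
  have hC21 : 1 ≤ C2 := by
    have : (0 : ℝ) ≤ q1 := Nat.cast_nonneg _
    rw [hC2]
    linarith
  set C4 : ℝ := 8 * Q.card with hC4
  have hC40 : 0 ≤ C4 := by positivity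
  -- the exceptional triples
  obtain ⟨K, hK⟩ : ∃ K : ℤ, K = C1 a b c κ := ⟨_, rfl⟩
  have hK1 : 1 ≤ K := by rw [hK]; exact C1_pos hκ
  have hKb : |b * κ| ≤ K := by
    rw [hK, abs_mul, abs_of_pos hκ]
    unfold C1
    have h1 : 0 ≤ |b| * κ := by positivity
    have h2 : 0 ≤ 4 * |a * c| * κ ^ 2 := by positivity
    have h3 : 0 ≤ b ^ 2 * κ ^ 2 := by positivity
    linarith
  set M : ℝ := ((K ^ 2 + |b * κ| * K + |a * c * κ ^ 2| : ℤ) : ℝ) with hM
  set T₀ := tri (b * κ) (a * c * κ ^ 2) M M with hT₀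
  set C5 : ℝ := (T₀.card : ℝ) with hC5
  have hC50 : 0 ≤ C5 := Nat.cast_nonneg _
  refine ⟨C2 + C4 + C5, by linarith, fun N hN s hs => ?_⟩
  have hN0 : (1 : ℝ) ≤ N := by exact_mod_cast hN
  set X : ℝ := N / (C2 + C4 + C5) with hX
  have hXN : C2 * X ≤ N := by
    rw [hX, mul_div_assoc', div_le_iff₀ (by linarith)]
    nlinarith
  set G := PA g a b c (a * κ ^ 2) s N with hG
  let V : ℕ × ℕ → Finset ℕ := fun p =>
    (Icc 1 N).filter (fun x : ℕ => a * κ ^ 2 * Fp a b c x = (p.1 : ℤ) * p.2)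
  let S0 : Finset (Bool × ℕ) := Finset.univ ×ˢ Q
  obtain ⟨S1, hS1⟩ : ∃ S1 : Finset Tr, S1 = S0.biUnion (fun p => (G.sigma V).image
    (fun y => ph a b c κ p ⟨y.2, y.1.1⟩)) := ⟨_, rfl⟩
  have core : ∀ (D : ℕ) (n : ℤ) (d' : ℕ), 1 ≤ D → (D : ℝ) ≤ X → 1 ≤ d' → (d' : ℝ) ≤ X →
      (D : ℤ) * d' = Qp (b * κ) (a * c * κ ^ 2) n → Int.gcd n κ = 1 → g (D * d') = -1 →
      G1 (a * κ) Q (D, n, d') → D ≤ d' → K < n → ((D, n, d') : Tr) ∈ S1 := by
    intro D n d' t1 t2 t3 t4 t5 hgcd hsgn hG1 hDd' hnK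
    obtain ⟨l, hl, d, hDd, hmod⟩ := hG1
    simp only at hDd hmod
    have hX1 : 1 ≤ X := by
      have : (1 : ℝ) ≤ D := by exact_mod_cast t1
      linarith
    have hl2 : 2 ≤ l := (hQ l hl).two_le
    have hl1 : 1 ≤ l := by omega
    have hd1 : 1 ≤ d := by
      rcases Nat.eq_zero_or_pos d with hd | hd
      · rw [hd, mul_zero] at hDd
        omega
      · exact hd
    have hld' : 1 ≤ l * d' := Nat.mul_pos hl1 t3
    have heq : (d : ℤ) * ((l * d' : ℕ) : ℤ) = n ^ 2 + b * κ * n + a * c * κ ^ 2 := by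
      have : (d : ℤ) * ((l * d' : ℕ) : ℤ) = (D : ℤ) * d' := by
        rw [hDd]
        push_cast
        ring
      rw [this, t5]
      rfl
    have hdvd : a * κ ∣ n - 1 * d := by rw [one_mul]; exact hmod
    obtain ⟨n₁, n₂, e1, e2, e3, e4, e5⟩ := h κ 1 n d (l * d') hκ0 haκ (Or.inl rfl) hd1 hld' heq hgcd
      hdvd
    rw [one_mul] at e1 e2
    have hNT : g (d * (l * d')) = -1 := by
      rw [← hsgn]
      congr 1
      rw [hDd]
      ring
    rw [hNT] at e3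
    have hle' : l * d ≤ d' := by rw [← hDd]; exact hDd'
    have h5' : ((l * d : ℕ) : ℤ) * (d' : ℤ) = Qp (b * κ) (a * c * κ ^ 2) n := by
      rw [← hDd]; exact t5
    have hnK' : C1 a b c κ < n := by rw [← hK]; exact hnK
    obtain ⟨p1, p2⟩ := ends (a := a) (b := b) (c := c) hκ hl2 hd1 hle' h5' hnK'
    obtain ⟨p3, p4⟩ := cof_pos (a := a) (b := b) (c := c) hκ hl2 hd1 hle' h5' hnK'
    obtain ⟨E, hE⟩ := Int.eq_ofNat_of_zero_le p3.le
    have hE1 : 1 ≤ E := by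
      have : (0 : ℤ) < E := by rw [← hE]; exact p3
      exact_mod_cast this
    -- sizes
    have hn := n_le (κ := κ) hX1 t2 t4 t5
    have hn0 : (0 : ℝ) < n := by
      have : 0 < n := by linarith
      exact_mod_cast this
    rw [abs_of_pos hn0] at hn
    have hpos1 : 1 ≤ n₁ := by
      by_contra hcon
      have h1 : n₁ ≤ 0 := by omega
      nlinarith
    have hpos2 : 1 ≤ n₂ := by
      by_contra hcon
      have h1 : n₂ ≤ 0 := by omega
      nlinarith
    have hq0 : (0 : ℝ) ≤ q1 := Nat.cast_nonneg _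
    have hlq : (l : ℝ) ≤ q1 := by exact_mod_cast hq1 l hl
    have hl0 : (0 : ℝ) ≤ l := Nat.cast_nonneg _
    have hd0 : (0 : ℝ) ≤ d' := Nat.cast_nonneg _
    have hlX : (l : ℝ) * d' ≤ q1 * X := mul_le_mul hlq t4 hd0 (by linarith)
    have hn1 : (n₁ : ℝ) ≤ N := by
      have h1 : n₁ ≤ n := by nlinarith
      have h2 : (n₁ : ℝ) ≤ n := by exact_mod_cast h1
      rw [hC2] at hXN
      nlinarith
    have hn2 : (n₂ : ℝ) ≤ N := by
      have h1 : n₂ ≤ ((l * d' : ℕ) : ℤ) - b * κ := by nlinarith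
      have h2 : (n₂ : ℝ) ≤ (l : ℝ) * d' - ((b * κ : ℤ) : ℝ) := by
        have h3 : ((n₂ : ℤ) : ℝ) ≤ ((((l * d' : ℕ) : ℤ) - b * κ : ℤ) : ℝ) := Int.cast_le.mpr h1
        rw [Int.cast_sub, Int.cast_natCast, Nat.cast_mul] at h3
        exact h3
      have h4 := neg_abs_le ((b * κ : ℤ) : ℝ)
      rw [hC2] at hXN
      nlinarith
    have hdD : d ≤ D := by
      rw [hDd]
      exact Nat.le_mul_of_pos_left d hl1
    have hdX : (d : ℝ) ≤ X := by
      have : (d : ℝ) ≤ D := by exact_mod_cast hdD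
      linarith
    have hEN : E ≤ N := by
      have h1 : (E : ℤ) ≤ d + ((l * d' : ℕ) : ℤ) := by rw [← hE]; linarith
      have h2 : (E : ℝ) ≤ d + (l : ℝ) * d' := by
        have h3 : (((E : ℕ) : ℤ) : ℝ) ≤ (((d : ℕ) : ℤ) + ((l * d' : ℕ) : ℤ) : ℤ) := Int.cast_le.mpr h1
        push_cast at h3
        exact h3
      have h3 : (E : ℝ) ≤ N := by
        rw [hC2] at hXN
        nlinarith
      exact_mod_cast h3
    have hdN : d ≤ N := by
      have h3 : (d : ℝ) ≤ N := by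
        rw [hC2] at hXN
        nlinarith
      exact_mod_cast h3
    have hLN : l * d' ≤ N := by
      have h3 : ((l * d' : ℕ) : ℝ) ≤ N := by
        push_cast
        rw [hC2] at hXN
        nlinarith
      exact_mod_cast h3
    obtain ⟨m₁, rfl⟩ := Int.eq_ofNat_of_zero_le (show 0 ≤ n₁ by omega)
    obtain ⟨m₂, rfl⟩ := Int.eq_ofNat_of_zero_le (show 0 ≤ n₂ by omega)
    -- the two identities
    have i1 : (d : ℤ) * E = a * κ ^ 2 * Fp a b c m₁ := by
      have i0 : a * κ ^ 2 * Fp a b c m₁ =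
          (a * κ * m₁) ^ 2 + b * κ * (a * κ * m₁) + a * c * κ ^ 2 := by
        unfold Fp; ring
      rw [i0, e1, ← hE]
      linear_combination heq
    have i2 : ((l * d' : ℕ) : ℤ) * E = a * κ ^ 2 * Fp a b c m₂ := by
      have i0 : a * κ ^ 2 * Fp a b c m₂ =
          (a * κ * m₂) ^ 2 + b * κ * (a * κ * m₂) + a * c * κ ^ 2 := by
        unfold Fp; ring
      rw [i0, e2, ← hE]
      linear_combination heq
    have hmemG : ∀ (z : ℕ) (q : ℕ), 1 ≤ (z : ℤ) → 1 ≤ q → q ≤ N →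
        (q : ℤ) * E = a * κ ^ 2 * Fp a b c z → g (Fp a b c z).natAbs = s → (q, E) ∈ G := by
      intro z q hz1 hq1 hqN hz hgz
      rw [hG]
      unfold PA
      rw [mem_filter, mem_product, Finset.mem_Icc, Finset.mem_Icc]
      exact ⟨⟨⟨hq1, hqN⟩, hE1, hEN⟩, z, by exact_mod_cast hz1, hz, hgz⟩
    have hmemV : ∀ (z : ℕ) (q : ℕ), 1 ≤ (z : ℤ) → (((z : ℕ) : ℤ) : ℝ) ≤ N →
        (q : ℤ) * E = a * κ ^ 2 * Fp a b c z → z ∈ V (q, E) := by
      intro z q hz1 hz hv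
      show z ∈ (Icc 1 N).filter (fun x : ℕ => a * κ ^ 2 * Fp a b c x = ((q, E).1 : ℤ) * (q, E).2)
      rw [mem_filter, Finset.mem_Icc]
      rw [Int.cast_natCast] at hz
      exact ⟨⟨by exact_mod_cast hz1, by exact_mod_cast hz⟩, hv.symm⟩
    have hD0 : (D : ℤ) ≠ 0 := by exact_mod_cast (by omega : D ≠ 0)
    have hd0' : (d' : ℤ) ≠ 0 := by exact_mod_cast (by omega : d' ≠ 0)
    rw [hS1, mem_biUnion]
    have hcase : g (Fp a b c m₁).natAbs = s ∨ g (Fp a b c m₂).natAbs = s := by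
      rcases hg.val (Fp a b c m₁).natAbs with h1 | h1 <;>
        rcases hg.val (Fp a b c m₂).natAbs with h2 | h2 <;> rcases hs with rfl | rfl <;>
        rw [h1, h2] at e3 ⊢ <;> simp at e3 ⊢
    rcases hcase with hc | hc
    · refine ⟨(true, l), ?_, ?_⟩
      · simp only [S0, mem_product, mem_univ, true_and]
        exact hl
      · rw [mem_image]
        refine ⟨⟨(d, E), m₁⟩, mem_sigma.mpr ⟨hmemG m₁ d hpos1 hd1 hdN i1 hc,
          hmemV m₁ d hpos1 hn1 i1⟩, ?_⟩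
        have h1 : a * κ * m₁ + d = n := by rw [e1]; ring
        show ((l * d, a * κ * m₁ + d,
          (Qp (b * κ) (a * c * κ ^ 2) (a * κ * m₁ + d) / ((l * d : ℕ) : ℤ)).toNat) : Tr) = _
        rw [h1, ← hDd, ← t5, Int.mul_ediv_cancel_left _ hD0, Int.toNat_natCast]
    · refine ⟨(false, l), ?_, ?_⟩
      · simp only [S0, mem_product, mem_univ, true_and]
        exact hl
      · rw [mem_image]
        refine ⟨⟨(l * d', E), m₂⟩, mem_sigma.mpr ⟨hmemG m₂ _ hpos2 hld' hLN i2 hc,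
          hmemV m₂ _ hpos2 hn2 i2⟩, ?_⟩
        have h1 : ((l * d' : ℕ) : ℤ) - b * κ - a * κ * m₂ = n := by rw [e2]; ring
        show (((Qp (b * κ) (a * c * κ ^ 2) (((l * d' : ℕ) : ℤ) - b * κ - a * κ * m₂) /
          ((l * d' / l : ℕ) : ℤ)).toNat, ((l * d' : ℕ) : ℤ) - b * κ - a * κ * m₂,
          l * d' / l) : Tr) = _
        rw [h1, Nat.mul_div_cancel_left _ (by omega : 0 < l), ← t5, Int.mul_ediv_cancel _ hd0',
          Int.toNat_natCast]
  have hsub : (tri (b * κ) (a * c * κ ^ 2) X X).filter (fun e => Int.gcd e.2.1 κ = 1 ∧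
      g (NT e) = -1 ∧ G1 (a * κ) Q e ∧ G1 (a * κ) Q (sw e)) ⊆ T₀ ∪ (S1 ∪ S1.image sw) := by
    rintro ⟨D, n, d'⟩ he
    rw [mem_filter] at he
    obtain ⟨he, hgcd, hsgn, hg1, hg2⟩ := he
    obtain ⟨t1, t2, t3, t4, t5, t6⟩ := mem_tri.mp he
    simp only at t1 t2 t3 t4 t5 t6 hgcd
    rw [mem_union, mem_union]
    rcases le_or_gt n K with hnK | hnK
    · left
      rw [hT₀, mem_tri]
      have hb1 := neg_abs_le (b * κ)
      have hb2 := le_abs_self (b * κ)
      have hnabs : |n| ≤ K := by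
        rw [abs_le]
        constructor
        · linarith
        · exact hnK
      have hQ1 : Qp (b * κ) (a * c * κ ^ 2) n ≤ K ^ 2 + |b * κ| * K + |a * c * κ ^ 2| := by
        unfold Qp
        have h1 : n ^ 2 ≤ K ^ 2 := by
          rw [← sq_abs n]
          have := abs_nonneg n
          nlinarith
        have h2 : b * κ * n ≤ |b * κ| * K := by
          refine (le_abs_self _).trans ?_
          rw [abs_mul (b * κ) n]
          exact mul_le_mul_of_nonneg_left hnabs (abs_nonneg _)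
        have h3 := le_abs_self (a * c * κ ^ 2)
        linarith
      have hDz : (D : ℤ) ≤ K ^ 2 + |b * κ| * K + |a * c * κ ^ 2| := by
        refine le_trans ?_ hQ1
        rw [← t5]
        exact_mod_cast Nat.le_mul_of_pos_right D t3
      have hdz : (d' : ℤ) ≤ K ^ 2 + |b * κ| * K + |a * c * κ ^ 2| := by
        refine le_trans ?_ hQ1
        rw [← t5]
        exact_mod_cast Nat.le_mul_of_pos_left d' t1
      refine ⟨t1, ?_, t3, ?_, t5, t6⟩
      · rw [hM]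
        have : (((D : ℕ) : ℤ) : ℝ) ≤ ((K ^ 2 + |b * κ| * K + |a * c * κ ^ 2| : ℤ) : ℝ) :=
          Int.cast_le.mpr hDz
        rw [Int.cast_natCast] at this
        exact this
      · rw [hM]
        have : (((d' : ℕ) : ℤ) : ℝ) ≤ ((K ^ 2 + |b * κ| * K + |a * c * κ ^ 2| : ℤ) : ℝ) :=
          Int.cast_le.mpr hdz
        rw [Int.cast_natCast] at this
        exact this
    · right
      rcases le_total D d' with hle | hle
      · left
        exact core D n d' t1 t2 t3 t4 t5 hgcd hsgn hg1 hle hnK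
      · right
        rw [mem_image]
        refine ⟨(d', n, D), core d' n D t3 t4 t1 t2 ?_ hgcd ?_ hg2 hle hnK, rfl⟩
        · rw [← t5]; ring
        · rw [← hsgn]
          congr 1
          show d' * D = D * d'
          ring
  -- the count
  have hcard1 : (((tri (b * κ) (a * c * κ ^ 2) X X).filter (fun e => Int.gcd e.2.1 κ = 1 ∧
      g (NT e) = -1 ∧ G1 (a * κ) Q e ∧ G1 (a * κ) Q (sw e))).card : ℝ) ≤
      C5 + 4 * Q.card * ((G.sigma V).card : ℝ) := by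
    have h0 : S1.card ≤ S0.card * (G.sigma V).card := by
      rw [hS1]
      exact card_biUnion_le_card_mul _ _ _ fun p _ => card_image_le
    have h1 : ((tri (b * κ) (a * c * κ ^ 2) X X).filter (fun e => Int.gcd e.2.1 κ = 1 ∧
      g (NT e) = -1 ∧ G1 (a * κ) Q e ∧ G1 (a * κ) Q (sw e))).card ≤
        T₀.card + 2 * (S0.card * (G.sigma V).card) := by
      refine (card_le_card hsub).trans ((card_union_le _ _).trans ?_)
      refine Nat.add_le_add_left ((card_union_le _ _).trans ?_) _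
      have h2 : (S1.image sw).card ≤ S1.card := card_image_le
      omega
    have h3 : S0.card = 2 * Q.card := by
      simp only [S0, card_product, card_univ, Fintype.card_bool]
    have h5 : ((tri (b * κ) (a * c * κ ^ 2) X X).filter (fun e => Int.gcd e.2.1 κ = 1 ∧
      g (NT e) = -1 ∧ G1 (a * κ) Q e ∧ G1 (a * κ) Q (sw e))).card ≤
        T₀.card + 4 * Q.card * (G.sigma V).card := by
      rw [h3] at h1
      have : 2 * (2 * Q.card * (G.sigma V).card) = 4 * Q.card * (G.sigma V).card := by ring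
      omega
    rw [hC5]
    exact_mod_cast h5
  have hcard2 : ((G.sigma V).card : ℝ) ≤ 2 * (G.card : ℝ) := by
    have h1 : (G.sigma V).card ≤ G.card * 2 := by
      rw [card_sigma, ← smul_eq_mul, ← sum_const]
      exact sum_le_sum fun p _ => roots_le ha haκ2 _ N
    have h2 : ((G.sigma V).card : ℝ) ≤ ((G.card * 2 : ℕ) : ℝ) := by exact_mod_cast h1
    rw [Nat.cast_mul, Nat.cast_ofNat] at h2
    linarith
  have hG0 : (0 : ℝ) ≤ G.card := Nat.cast_nonneg _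
  calc (((tri (b * κ) (a * c * κ ^ 2) X X).filter (fun e => Int.gcd e.2.1 κ = 1 ∧
      g (NT e) = -1 ∧ G1 (a * κ) Q e ∧ G1 (a * κ) Q (sw e))).card : ℝ)
      ≤ C5 + 4 * Q.card * (2 * (G.card : ℝ)) :=
        hcard1.trans (add_le_add_right (mul_le_mul_of_nonneg_left hcard2 (by positivity)) _)
    _ = C4 * G.card + C5 := by rw [hC4]; ring
    _ ≤ (C2 + C4 + C5) * G.card + (C2 + C4 + C5) := by
        have h1 : C4 * G.card ≤ (C2 + C4 + C5) * (G.card : ℝ) := by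
          gcongr
          linarith
        linarith

end Pool.Agent.H591.Q648
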